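import Pool.Agent.Helper92.BO.GoalsF

/-!
# Project BO, packet PTD
-/

namespace Pool.Agent.Helper24.BO

open Pool.Agent.Helper81.CC Pool.Agent.Bin Pool.Agent.Helper92.VP Pool.Agent.Helper92.FR
open Pool.Agent.Helper92.BO

theorem pt_dedup {α : Type} [ToData α] {l : α → List (List ℕ)} (hl : PolyTime l) :
    PolyTime (fun a => dedupL (l a)) := by
  unfold dedupL
  refine PolyTime.foldl_add (s0 := fun _ : α => ([] : List (List ℕ)))
    (step := fun _ acc S => if acc.contains S then acc else acc ++ [S]) hl (by fun_prop) ?_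
    (C := fun a => sz (l a) + 2) (hl.bd.add (PBd.const 2)) ?_
  · refine PolyTime.ite (by fun_prop) (by fun_prop) ?_
    exact PolyTime.append (by fun_prop) (PolyTime.list_cons (by fun_prop) (by fun_prop))
  · intro a acc S hS
    have h1 := sz_le_of_mem hS
    by_cases hc : acc.contains S = true
    · simp only [hc, if_true]
      omega
    · rw [if_neg hc]
      have h2 := sz_append acc [S]
      simp only [sz_cons, sz_nil] at h2
      omega

theorem pt_canon {α : Type} [ToData α] {n : α → ℕ} {vs : α → List ℕ} (hn : PolyTime n)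
    (hv : PolyTime vs) : PolyTime (fun a => canon (n a) (vs a)) := by
  unfold canon
  fun_prop

theorem ptd (hPTK : PtkStmt) : PtdStmt := by
  intro α _ E n B m N hE hn hB hm hN
  unfold setsL
  apply pt_dedup
  have hw : PolyTime (fun z : (α × ℕ) × ℕ =>
      wlk (E z.1.1) (n z.1.1) (B z.1.1) (2 * m z.1.1) z.2 z.1.2) :=
    hPTK ((α × ℕ) × ℕ) (fun z => E z.1.1) (fun z => n z.1.1) (fun z => B z.1.1) (fun z => 2 * m z.1.1)
      (fun z => z.2) (fun z => z.1.2) (by fun_prop) (by fun_prop) (by fun_prop) (by fun_prop)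
      (by fun_prop) (by fun_prop)
  have hc : PolyTime (fun z : (α × ℕ) × ℕ =>
      canon (n z.1.1) (wlk (E z.1.1) (n z.1.1) (B z.1.1) (2 * m z.1.1) z.2 z.1.2)) :=
    pt_canon (by fun_prop) hw
  have hm' : PolyTime (fun z : α × ℕ => (List.range (N z.1)).map fun e =>
      canon (n z.1) (wlk (E z.1) (n z.1) (B z.1) (2 * m z.1) e z.2)) :=
    PolyTime.list_map (l := fun z : α × ℕ => List.range (N z.1))
      (f := fun z e => canon (n z.1) (wlk (E z.1) (n z.1) (B z.1) (2 * m z.1) e z.2))
      (by fun_prop) hc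
  have hf : PolyTime (fun a => (List.range (n a)).flatMap fun v => (List.range (N a)).map fun e =>
      canon (n a) (wlk (E a) (n a) (B a) (2 * m a) e v)) :=
    PolyTime.flatMap (l := fun a => List.range (n a))
      (f := fun a v => (List.range (N a)).map fun e =>
        canon (n a) (wlk (E a) (n a) (B a) (2 * m a) e v)) (by fun_prop) hm'
  exact PolyTime.filter (f := fun a (S : List ℕ) => decide (S.length ≤ m a)) hf (by fun_prop)

end Pool.Agent.Helper24.BO
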