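import Pool.Agent.Helper92.BO.GoalsC

/-!
# Project BO, packet SCL
-/

namespace Pool.Agent.Helper24.BO

open MeasureTheory Finset
open Pool.Agent.Helper92.BO

theorem scl : SclStmt := by
  intro n S K _ hS u hu0 hu1
  set d : Fin n → ℝ := fun j => if j ∈ K then u else 1 with hd
  set T : (Fin n → ℝ) →ₗ[ℝ] (Fin n → ℝ) := Matrix.toLin' (Matrix.diagonal d) with hT
  have hTa : ∀ U : Fin n → ℝ, T U = fun j => if j ∈ K then u * U j else U j := by
    intro U
    funext j
    rw [hT, Matrix.toLin'_apply, Matrix.mulVec_diagonal]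
    by_cases hj : j ∈ K <;> simp [hd, hj]
  have hdet : LinearMap.det T = u ^ K.card := by
    rw [hT, LinearMap.det_toLin', Matrix.det_diagonal, hd]
    rw [Finset.prod_ite_mem, Finset.univ_inter, Finset.prod_const]
  have himg : T '' (S ∩ {U | ∀ i, 0 ≤ U i ∧ U i ≤ 1}) =
      S ∩ {U | (∀ i, 0 ≤ U i ∧ U i ≤ 1) ∧ ∀ j ∈ K, U j ≤ u} := by
    ext V
    constructor
    · rintro ⟨U, ⟨hUS, hUc⟩, rfl⟩
      rw [hTa]
      refine ⟨(hS U u hu0).1 hUS, ?_, ?_⟩
      · intro i
        by_cases hi : i ∈ K
        · simp only [hi, if_true]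
          exact ⟨mul_nonneg hu0.le (hUc i).1, by nlinarith [(hUc i).1, (hUc i).2]⟩
        · simp only [hi, if_false]
          exact hUc i
      · intro j hj
        simp only [hj, if_true]
        nlinarith [(hUc j).1, (hUc j).2]
    · rintro ⟨hVS, hVc, hVu⟩
      have hV : (fun j => if j ∈ K then u * (if j ∈ K then u⁻¹ * V j else V j)
          else (if j ∈ K then u⁻¹ * V j else V j)) = V := by
        funext j
        by_cases hj : j ∈ K
        · simp only [hj, if_true]
          rw [← mul_assoc, mul_inv_cancel₀ hu0.ne', one_mul]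
        · simp only [hj, if_false]
      refine ⟨fun j => if j ∈ K then u⁻¹ * V j else V j, ⟨?_, ?_⟩, ?_⟩
      · rw [hS _ u hu0, hV]
        exact hVS
      · intro i
        by_cases hi : i ∈ K
        · simp only [hi, if_true]
          refine ⟨mul_nonneg (inv_nonneg.2 hu0.le) (hVc i).1, ?_⟩
          rw [inv_mul_le_iff₀ hu0, mul_one]
          exact hVu i hi
        · simp only [hi, if_false]
          exact hVc i
      · rw [hTa]
        exact hV
  rw [← himg, MeasureTheory.Measure.addHaar_image_linearMap, hdet, ENNReal.toReal_mul,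
    ENNReal.toReal_ofReal (abs_nonneg _), abs_of_nonneg (pow_nonneg hu0.le _)]

end Pool.Agent.Helper24.BO
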