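import Pool.Agent.Helper92.BO.GoalsB

/-!
# Project BO, packet SMI
-/

namespace Pool.Agent.Helper24.BO

open MeasureTheory Filter Topology Function
open Pool.Agent.Helper92.BO

theorem loc_eq (hLOC : LocStmt) (G : SimpleGraph ℕ) (z : ℂ) (L : List ℕ) (b b' : ℕ → ℝ)
    (h : ∀ u ∈ L, b u = b' u) : ZC G z L b = ZC G z L b' :=
  (hLOC G (fun _ => 1) z 1 L b b' h).1

/-- The head step: the integral as a function of the bound of the head. -/
theorem head_eq (hLOC : LocStmt) (G : SimpleGraph ℕ) (z : ℂ) (L : List ℕ) (v : ℕ) (hv : v ∉ L)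
    (b : ℕ → ℝ) (y : ℝ) :
    ZC G z (v :: L) (update b v y) =
      ZCf z (fun x => ZC G z L (cut G v (1 - x) b)) y := by
  simp only [ZC, ZCf, update_self]
  apply intervalIntegral.integral_congr
  intro x _
  simp only
  congr 1
  apply loc_eq hLOC
  intro u hu
  have huv : u ≠ v := fun h => hv (h ▸ hu)
  simp only [cut, update_of_ne huv]

/-- One coordinate, at the head. -/
theorem head_step (hSMV : SmvStmt) (hSMO : SmoStmt) (hLOC : LocStmt)
    (G : SimpleGraph ℕ) (Δ : ℕ) (z : ℂ) (hD : DegLe G Δ)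
    (hz : ‖z‖ ≤ 1 / (400 * (Δ + 1) ^ 2)) (L : List ℕ) (v : ℕ) (hn : (v :: L).Nodup)
    (hL : HS G Δ z L) (b : ℕ → ℝ) (hb : Pos1 L b) :
    (∀ y, 0 < y → y ≤ 1 → ZC G z (v :: L) (update b v y) ≠ 0) ∧
    ∀ y' y : ℝ, 0 < y' → y' ≤ y → y ≤ 1 → ∃ D : ℂ,
      ZC G z (v :: L) (update b v y) * ((min y' (1 / 2) : ℝ) : ℂ) =
        Complex.exp D * (ZC G z (v :: L) (update b v y') * ((min y (1 / 2) : ℝ) : ℂ)) ∧
      ‖D‖ ≤ ‖z‖ * (bta Δ y - bta Δ y') := by
  have hnL : L.Nodup := (List.nodup_cons.1 hn).2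
  have hvL : v ∉ L := (List.nodup_cons.1 hn).1
  obtain ⟨h1, h2, h3, h4⟩ := hSMV G Δ z hD hz L v b hnL hvL hb hL
  obtain ⟨k1, k2⟩ := hSMO Δ z (fun x => ZC G z L (cut G v (1 - x) b)) hz h1 h2 h3 h4
  constructor
  · intro y hy0 hy1
    rw [head_eq hLOC G z L v hvL b y]
    exact k1 y hy0 hy1
  · intro y' y hy0 hyy hy1
    rw [head_eq hLOC G z L v hvL b y, head_eq hLOC G z L v hvL b y']
    exact k2 y' y hy0 hyy hy1

/-- One coordinate, anywhere. -/
theorem one_step (hSMV : SmvStmt) (hSMO : SmoStmt) (hPRM : PrmStmt) (hLOC : LocStmt)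
    (G : SimpleGraph ℕ) (Δ : ℕ) (z : ℂ) (hD : DegLe G Δ)
    (hz : ‖z‖ ≤ 1 / (400 * (Δ + 1) ^ 2)) (n : ℕ)
    (ih : ∀ L : List ℕ, L.length = n → L.Nodup → HS G Δ z L)
    (L : List ℕ) (hlen : L.length = n + 1) (hn : L.Nodup) (c : ℕ → ℝ) (hc : Pos1 L c)
    (u : ℕ) (hu : u ∈ L) (y : ℝ) (hy : c u ≤ y) (hy1 : y ≤ 1) :
    ZC G z L c ≠ 0 ∧ ∃ D : ℂ,
      ZC G z L (update c u y) * ((min (c u) (1 / 2) : ℝ) : ℂ) =
        Complex.exp D * (ZC G z L c * ((min y (1 / 2) : ℝ) : ℂ)) ∧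
      ‖D‖ ≤ ‖z‖ * (bta Δ y - bta Δ (c u)) := by
  have hperm : L.Perm (u :: L.erase u) := List.perm_cons_erase hu
  have hn' : (u :: L.erase u).Nodup := hperm.nodup_iff.1 hn
  have hlen' : (L.erase u).length = n := by
    have := hperm.length_eq
    simp only [List.length_cons] at this
    omega
  have hL' : HS G Δ z (L.erase u) := ih _ hlen' (List.nodup_cons.1 hn').2
  have hb' : Pos1 (L.erase u) c := fun w hw => hc w (List.mem_of_mem_erase hw)
  obtain ⟨k1, k2⟩ := head_step hSMV hSMO hLOC G Δ z hD hz (L.erase u) u hn' hL' c hb'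
  have hc0 := (hc u hu).1
  have hc1 := (hc u hu).2
  have e1 : ZC G z L c = ZC G z (u :: L.erase u) (update c u (c u)) := by
    rw [update_eq_self]
    exact (hPRM G z 1 L _ c hperm (fun w hw => ⟨(hc w hw).1.le, (hc w hw).2⟩)).1
  have e2 : ZC G z L (update c u y) = ZC G z (u :: L.erase u) (update c u y) := by
    refine (hPRM G z 1 L _ _ hperm (fun w hw => ?_)).1
    by_cases hwu : w = u
    · subst hwu
      rw [update_self]
      exact ⟨by linarith, hy1⟩
    · rw [update_of_ne hwu]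
      exact ⟨(hc w hw).1.le, (hc w hw).2⟩
  refine ⟨?_, ?_⟩
  · rw [e1]
    exact k1 (c u) hc0 hc1
  · rw [e1, e2]
    exact k2 (c u) y hc0 hy hy1

/-- The chain of coordinates. -/
theorem chain (hSMV : SmvStmt) (hSMO : SmoStmt) (hPRM : PrmStmt) (hLOC : LocStmt)
    (G : SimpleGraph ℕ) (Δ : ℕ) (z : ℂ) (hD : DegLe G Δ)
    (hz : ‖z‖ ≤ 1 / (400 * (Δ + 1) ^ 2)) (n : ℕ)
    (ih : ∀ L : List ℕ, L.length = n → L.Nodup → HS G Δ z L)
    (L : List ℕ) (hlen : L.length = n + 1) (hn : L.Nodup) (b b' : ℕ → ℝ) (hb : Pos1 L b)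
    (hb' : Pos1 L b') (hbb : ∀ u ∈ L, b u ≤ b' u) :
    ∀ M : List ℕ, M.Nodup → (∀ u ∈ M, u ∈ L) → ∃ D : ℂ,
      ZC G z L (fun u => if u ∈ M then b' u else b u) *
        (((M.map fun u => min (b u) (1 / 2)).prod : ℝ) : ℂ) =
      Complex.exp D * (ZC G z L b * (((M.map fun u => min (b' u) (1 / 2)).prod : ℝ) : ℂ)) ∧
      ‖D‖ ≤ ‖z‖ * (M.map fun u => bta Δ (b' u) - bta Δ (b u)).sum := by
  intro M
  induction M with
  | nil =>
    intro _ _
    refine ⟨0, ?_, by simp⟩
    simp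
  | cons u M ihM =>
    intro hM hML
    have huM : u ∉ M := (List.nodup_cons.1 hM).1
    obtain ⟨D0, hD0, hn0⟩ := ihM (List.nodup_cons.1 hM).2
      (fun w hw => hML w (List.mem_cons_of_mem _ hw))
    have huL : u ∈ L := hML u List.mem_cons_self
    set c : ℕ → ℝ := fun w => if w ∈ M then b' w else b w with hcdef
    have hcu : c u = b u := by simp [hcdef, huM]
    have hcpos : Pos1 L c := by
      intro w hw
      by_cases hwM : w ∈ M
      · simpa [hcdef, hwM] using hb' w hw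
      · simpa [hcdef, hwM] using hb w hw
    obtain ⟨_, D1, hD1, hn1⟩ := one_step hSMV hSMO hPRM hLOC G Δ z hD hz n ih L hlen hn c hcpos u
      huL (b' u) (by rw [hcu]; exact hbb u huL) (hb' u huL).2
    have hmix : (fun w => if w ∈ u :: M then b' w else b w) = update c u (b' u) := by
      funext w
      by_cases hwu : w = u
      · subst hwu
        simp
      · rw [update_of_ne hwu]
        simp [hcdef, hwu]
    rw [hcu] at hD1 hn1
    refine ⟨D1 + D0, ?_, ?_⟩
    · rw [hmix, List.map_cons, List.prod_cons, List.map_cons, List.prod_cons]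
      push_cast
      rw [Complex.exp_add]
      calc ZC G z L (update c u (b' u)) * ((((min (b u) (1 / 2) : ℝ) : ℂ)) *
            (((M.map fun u => min (b u) (1 / 2)).prod : ℝ) : ℂ))
          = (ZC G z L (update c u (b' u)) * ((min (b u) (1 / 2) : ℝ) : ℂ)) *
            (((M.map fun u => min (b u) (1 / 2)).prod : ℝ) : ℂ) := by ring
        _ = Complex.exp D1 * ((min (b' u) (1 / 2) : ℝ) : ℂ) *
            (ZC G z L c * (((M.map fun u => min (b u) (1 / 2)).prod : ℝ) : ℂ)) := by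
            rw [hD1]; ring
        _ = _ := by
            rw [hD0]; ring
    · rw [List.map_cons, List.sum_cons]
      calc ‖D1 + D0‖ ≤ ‖D1‖ + ‖D0‖ := norm_add_le _ _
        _ ≤ _ := by rw [mul_add]; exact add_le_add hn1 hn0

theorem smi (hSMV : SmvStmt) (hSMO : SmoStmt) (hPRM : PrmStmt) (hLOC : LocStmt) : SmiStmt := by
  intro G Δ z hD hz
  have main : ∀ n : ℕ, ∀ L : List ℕ, L.length = n → L.Nodup → HS G Δ z L := by
    intro n
    induction n with
    | zero =>
      intro L hlen _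
      have : L = [] := List.length_eq_zero_iff.1 hlen
      subst this
      refine ⟨fun b _ => by simp [ZC], fun b b' _ _ _ => ⟨0, by simp [ZC], by simp⟩⟩
    | succ n ih =>
      intro L hlen hn
      constructor
      · intro b hb
        obtain ⟨u, hu⟩ : ∃ u, u ∈ L := by
          cases L with
          | nil => simp at hlen
          | cons a t => exact ⟨a, List.mem_cons_self⟩
        exact (one_step hSMV hSMO hPRM hLOC G Δ z hD hz n ih L hlen hn b hb u hu (b u) le_rfl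
          (hb u hu).2).1
      · intro b b' hb hb' hbb
        obtain ⟨D, h1, h2⟩ := chain hSMV hSMO hPRM hLOC G Δ z hD hz n ih L hlen hn b b' hb hb' hbb
          L hn (fun u hu => hu)
        refine ⟨D, ?_, h2⟩
        rw [← h1]
        congr 1
        apply loc_eq hLOC
        intro u hu
        simp [hu]
  intro L hn
  exact main L.length L rfl hn

end Pool.Agent.Helper24.BO
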